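import Pool.Agent.Results.MP_00e23e_nt.DigitPermutations
import Pool.Agent.TH872.GQ.Dual

/-!
# Weighted level of distribution in the residue classes of integers with rearranged digits

Definitions used (in `Pool.Agent.TH872.An`): `Spread b k η d`: the integers `d i` (`i < k`) are digits in
base `b`, and no digit is taken at more than `(1 - η) k` of the `k` places `i`; `V b d σ`: the integer with the
permuted digits, thus the integer with the digit `d (σ i)` at the place `i`, in base `b`.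

From Mathlib: `ArithmeticFunction.vonMangoldt`: the function `Λ`; `Nat.totient`: Euler's function.
-/

set_option autoImplicit false

namespace Pool.Agent.Results.MP_188a10_nt.DigitPermutations

open Finset Pool.Agent.TH872.An

/-- `E(x; m, a) = ψ(x; m, a) - x / φ(m)`, where `ψ(x; m, a)` is the sum of `Λ(n)` over the `n ≤ x` with
`n ≡ a (mod m)`. -/
noncomputable def E (x m a : ℕ) : ℝ :=
  ∑ n ∈ (Icc 1 x).filter (fun n : ℕ => n ≡ a [MOD m]), ArithmeticFunction.vonMangoldt n - (x : ℝ) / Nat.totient m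

/-- `τ(m)`: the number of the divisors of `m`. In particular `τ(m) ^ 2 ≥ 3 ^ ν(m)`, where `ν(m)` is the number of
the prime factors of `m`. -/
noncomputable def τ (m : ℕ) : ℝ := m.divisors.card

/-- The sum of `λ(m) E(x(m); m, a)` over the `m ≤ Q` coprime to `a`. -/
noncomputable def weighted (lam : ℕ → ℝ) (x : ℕ → ℕ) (Q a : ℕ) : ℝ :=
  ∑ m ∈ (Icc 1 Q).filter (fun m : ℕ => a.Coprime m), lam m * E (x m) m a

/-- The residue `a_σ = c + κ v`, where `v` has the permuted digits `d`. -/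
def res (b : ℕ) {k : ℕ} (d : Fin k → ℕ) (κ c : ℤ) (σ : Equiv.Perm (Fin k)) : ℤ := c + κ * (V b d σ : ℕ)

open Classical in
/-- The sum of `w(σ) E(x; m, a_σ)` over the permutations `σ` for which `a_σ` is positive and coprime to `m`. -/
noncomputable def total (b : ℕ) {k : ℕ} (d : Fin k → ℕ) (κ c : ℤ) (w : Equiv.Perm (Fin k) → ℝ) (x m : ℕ) : ℝ :=
  ∑ σ ∈ univ.filter (fun σ : Equiv.Perm (Fin k) => 0 < res b d κ c σ ∧ (res b d κ c σ).toNat.Coprime m),
    w σ * E x m (res b d κ c σ).toNat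

open Classical in
/-- Let `b ≥ 2`, `B`, `T`, `U`, `κ ≠ 0`, `η > 0` and `ε > 0` be fixed, let `k` be large, `N = b ^ k` and
`Q = N ^ (1 - ε)`, let `d` be an arbitrary sequence of `k` digits in base `b` none of which is taken at more than
`(1 - η) k` places, and let `c` be an arbitrary integer with `|c| ≤ B N`. For a permutation `σ` of the `k` places let
`a_σ = c + κ v`, where `v` is the integer with the permuted digits.

(1) For arbitrary coefficients `λ(m)` with `|λ(m)| ≤ (τ(m) k) ^ T` (e.g. `|λ(m)| ≤ 3 ^ ν(m)`, if `T = 2`) all but at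
most `k! / k ^ U` of the permutations `σ` with `a = a_σ > 0` satisfy: the sum of `λ(m) E(x; m, a)` over the `m ≤ Q`
coprime to `a` is at most `N / k ^ U` in absolute value, for ALL `x ≤ B N`.

(2) The same holds for the sums of `λ(m) E(x(m); m, a)`, if `x(m) ≤ B N` is an arbitrary function of the modulus.

(3) For arbitrary coefficients `|w(σ)| ≤ k ^ T` and arbitrary `x(m) ≤ B N`, the sum over ALL `m ≤ Q` of `τ(m) ^ T` times
the ABSOLUTE VALUE of the sum of `w(σ) E(x(m); m, a_σ)`, over the permutations `σ` for which `a_σ` is positive and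
coprime to `m`, is at most `k! N / k ^ U`. -/
theorem result (b B T U : ℕ) (hb : 2 ≤ b) (κ : ℤ) (hκ : κ ≠ 0) (η ε : ℝ) (hη : 0 < η) (hε : 0 < ε) :
    ∃ k₀ : ℕ, ∀ k : ℕ, k₀ ≤ k → ∀ N : ℕ, N = b ^ k → ∀ Q : ℕ, Q = ⌊(N : ℝ) ^ (1 - ε)⌋₊ →
      ∀ d : Fin k → ℕ, Spread b k η d → ∀ c : ℤ, |c| ≤ B * (N : ℤ) →
      (∀ lam : ℕ → ℝ, (∀ m, |lam m| ≤ (τ m * k) ^ T) →
        ((univ.filter (fun σ : Equiv.Perm (Fin k) => 0 < res b d κ c σ ∧ ∃ x : ℕ, x ≤ B * N ∧
          N / (k : ℝ) ^ U < |weighted lam (fun _ => x) Q (res b d κ c σ).toNat|)).card : ℝ) ≤ k.factorial / (k : ℝ) ^ U ∧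
        ∀ x : ℕ → ℕ, (∀ m, x m ≤ B * N) →
        ((univ.filter (fun σ : Equiv.Perm (Fin k) => 0 < res b d κ c σ ∧
          N / (k : ℝ) ^ U < |weighted lam x Q (res b d κ c σ).toNat|)).card : ℝ) ≤ k.factorial / (k : ℝ) ^ U) ∧
      (∀ w : Equiv.Perm (Fin k) → ℝ, (∀ σ, |w σ| ≤ (k : ℝ) ^ T) → ∀ x : ℕ → ℕ, (∀ m, x m ≤ B * N) →
        ∑ m ∈ Icc 1 Q, τ m ^ T * |total b d κ c w (x m) m| ≤ k.factorial * (N / (k : ℝ) ^ U)) := by
  obtain ⟨T₁, U₁, m₁, k1, hA⟩ := Pool.Agent.TH872.GQ.heavy T (U + 1)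
  obtain ⟨T₂, U₂, m₂, k2, hB⟩ := Pool.Agent.TH872.GQ.absolute T (U + 1)
  obtain ⟨k3, h3⟩ := Pool.Agent.Results.MP_00e23e_nt.DigitPermutations.result b B T₁ U₁ hb κ hκ η ε hη hε
  obtain ⟨k4, h4⟩ := Pool.Agent.Results.MP_00e23e_nt.DigitPermutations.result b B T₂ U₂ hb κ hκ η ε hη hε
  obtain ⟨k5, h5⟩ := Pool.Agent.TH872.GQ.scale b B (max m₁ m₂) hb ε hε
  refine ⟨k1 + k2 + k3 + k4 + k5 + 4, fun k hk N hN Q hQ d hd c hc => ?_⟩
  have hk4 : (4 : ℝ) ≤ k := by exact_mod_cast (by omega : 4 ≤ k)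
  have hk0 : (0 : ℝ) < k := by linarith
  have hk1 : (1 : ℝ) ≤ k := by linarith
  obtain ⟨s1, s2, s3, s4⟩ := h5 k (by omega) N hN
  rw [← hQ] at s3
  obtain ⟨X, hX⟩ : ∃ X : ℕ, X = (B + 1) * N := ⟨_, rfl⟩
  rw [← hX] at s1 s2 s3 s4
  have hX' : B * N ≤ X := by rw [hX]; exact Nat.mul_le_mul_right _ (by omega)
  have hNX : (N : ℝ) ≤ X := by
    rw [hX]
    exact_mod_cast Nat.le_mul_of_pos_left N (by omega : 0 < B + 1)
  have s5 : ∀ m, m ≤ max m₁ m₂ → (Q : ℝ) * (k : ℝ) ^ m ≤ X := by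
    intro m hm
    refine le_trans ?_ s3
    exact mul_le_mul_of_nonneg_left (pow_le_pow_right₀ hk1 hm) (Nat.cast_nonneg _)
  have hc' : |c| ≤ B * (b : ℤ) ^ k := by
    refine hc.trans (le_of_eq ?_)
    rw [hN]
    push_cast
    rfl
  obtain ⟨M, hM⟩ : ∃ M : ℝ, M = (k.factorial : ℝ) := ⟨_, rfl⟩
  rw [← hM]
  have hM0 : 0 < M := by rw [hM]; exact_mod_cast k.factorial_pos
  obtain ⟨a, ha⟩ : ∃ a : Equiv.Perm (Fin k) → ℕ, a = fun σ => (res b d κ c σ).toNat := ⟨_, rfl⟩
  obtain ⟨Ω, hΩ⟩ : ∃ Ω : Finset (Equiv.Perm (Fin k)), Ω = univ.filter (fun σ => 0 < res b d κ c σ) := ⟨_, rfl⟩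
  have hΩsum : ∀ (E : Equiv.Perm (Fin k) → Prop) (_ : DecidablePred E),
      ∑ v ∈ Ω, (if E v then 1 / M else 0) = ((Ω.filter E).card : ℝ) / M := by
    intro E _
    rw [← sum_filter, sum_const, nsmul_eq_mul, mul_one_div]
  have hyp : ∀ T' U' : ℕ, (∀ lam : ℕ → ℝ, (∀ q, |lam q| ≤ (k : ℝ) ^ T') →
      (Nat.card {σ : Equiv.Perm (Fin k) // 0 < c + κ * V b d σ ∧
        ¬ Pool.Agent.Results.MP_00e23e_nt.DigitPermutations.Level b B U' k ε lam (c + κ * V b d σ).toNat} : ℝ) ≤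
        Nat.factorial k / (k : ℝ) ^ U') →
      Pool.Agent.TH872.GQ.Hyp k X (B * N) Q T' U' Ω (fun _ => 1 / M) a := by
    intro T' U' h lam hlam E hdec hE
    have h6 := h lam hlam
    rw [← hM, Nat.card_eq_fintype_card, Fintype.card_subtype] at h6
    rw [hΩsum, div_le_iff₀ hM0]
    have h7 : ((Ω.filter E).card : ℝ) ≤ M / (k : ℝ) ^ U' := by
      refine le_trans ?_ h6
      apply Nat.cast_le.2
      apply card_le_card
      intro v hv
      rw [mem_filter] at hv
      obtain ⟨hv1, hv2⟩ := hv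
      obtain ⟨x, hx, hlt⟩ := hE v hv1 hv2
      rw [hΩ, mem_filter] at hv1
      rw [mem_filter]
      refine ⟨mem_univ _, hv1.2, fun hL => ?_⟩
      have h8 := hL x (by rw [← hN]; exact hx)
      rw [← hN, ← hQ] at h8
      have h9 : (N : ℝ) / (k : ℝ) ^ U' ≤ X / (k : ℝ) ^ U' := div_le_div_of_nonneg_right hNX (by positivity)
      have h10 : Pool.Agent.Results.MP_00e23e_nt.DigitPermutations.weighted lam Q x (c + κ * V b d v).toNat =
          Pool.Agent.TH212.EH.W lam Q x (a v) := by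
        rw [ha]
        rfl
      rw [h10] at h8
      linarith
    refine h7.trans (le_of_eq ?_)
    ring
  have hypA := hyp T₁ U₁ (fun lam hlam => h3 k (by omega) d hd c hc' lam hlam)
  have hypB := hyp T₂ U₂ (fun lam hlam => h4 k (by omega) d hd c hc' lam hlam)
  have hp : ∀ ω ∈ Ω, (0 : ℝ) ≤ 1 / M := fun _ _ => by positivity
  have hp1 : ∑ ω ∈ Ω, 1 / M ≤ 1 := by
    rw [sum_const, nsmul_eq_mul, mul_one_div, div_le_one hM0, hM]
    have h6 : Ω.card ≤ k.factorial := by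
      refine (card_le_univ Ω).trans (le_of_eq ?_)
      rw [Fintype.card_perm, Fintype.card_fin]
    exact_mod_cast h6
  have hcard : ∀ (P R : Equiv.Perm (Fin k) → Prop) (_ : DecidablePred P) (_ : DecidablePred R),
      (∀ v, R v → 0 < res b d κ c v ∧ P v) →
      ∑ v ∈ Ω, (if P v then 1 / M else 0) ≤ 1 / (k : ℝ) ^ (U + 1) →
      ((univ.filter R).card : ℝ) ≤ M / (k : ℝ) ^ U := by
    intro P R hdec hdec' hR h
    rw [hΩsum, div_le_iff₀ hM0] at h
    have h6 : ((univ.filter R).card : ℝ) ≤ ((Ω.filter P).card : ℝ) := by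
      apply Nat.cast_le.2
      apply card_le_card
      intro v hv
      rw [mem_filter] at hv ⊢
      obtain ⟨h7, h8⟩ := hR v hv.2
      rw [hΩ, mem_filter]
      exact ⟨⟨hv.1, h7⟩, h8⟩
    refine h6.trans (h.trans ?_)
    rw [one_div, inv_mul_eq_div]
    exact div_le_div_of_nonneg_left hM0.le (by positivity) (pow_le_pow_right₀ hk1 (by omega))
  constructor
  · intro lam hlam
    have hlam' : ∀ q, |lam q| ≤ (k : ℝ) ^ T * (q.divisors.card : ℝ) ^ T := by
      intro q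
      refine (hlam q).trans (le_of_eq ?_)
      rw [mul_pow, mul_comm]
      rfl
    obtain ⟨r1, r2⟩ := hA k (by omega) X (B * N) Q hX' s1 s2 (s5 m₁ (le_max_left _ _)) _ Ω (fun _ => 1 / M) hp a hypA lam hlam'
    constructor
    · refine hcard (fun σ => ∃ x : ℕ, x ≤ B * N ∧ N / (k : ℝ) ^ U < |weighted lam (fun _ => x) Q (res b d κ c σ).toNat|) _
        (fun _ => Classical.propDecidable _) _ (fun v h => h) (r1 _ _ ?_)
      rintro v _ ⟨x, hx, hlt⟩
      refine ⟨x, hx, lt_of_le_of_lt (s4 U) ?_⟩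
      rw [ha]
      exact hlt
    · intro x hx
      refine hcard (fun σ => N / (k : ℝ) ^ U < |weighted lam x Q (res b d κ c σ).toNat|) _
        (fun _ => Classical.propDecidable _) _ (fun v h => h) (r2 x hx _ _ ?_)
      rintro v _ hlt
      refine lt_of_le_of_lt (s4 U) ?_
      rw [ha]
      exact hlt
  · intro w hw x hx
    have r3 := hB k (by omega) X (B * N) Q hX' s1 s2 (s5 m₂ (le_max_right _ _)) _ Ω (fun _ => 1 / M) hp hp1 a hypB w hw x hx
    have r4 := r3.trans (s4 U)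
    have e1 : ∀ m, |∑ v ∈ Ω.filter (fun v => (a v).Coprime m), 1 / M * (w v *
        (Pool.Agent.W93.LV.Fu (fun n => ArithmeticFunction.vonMangoldt n) (x m) m (a v) - (x m : ℝ) / Nat.totient m))| =
        |total b d κ c w (x m) m| / M := by
      intro m
      rw [← mul_sum, abs_mul, abs_of_nonneg (by positivity : 0 ≤ 1 / M), one_div, inv_mul_eq_div, hΩ, filter_filter, ha]
      unfold total
      congr 2
    simp only [e1] at r4
    have e3 : ∑ m ∈ Icc 1 Q, (m.divisors.card : ℝ) ^ T * (|total b d κ c w (x m) m| / M) =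
        (∑ m ∈ Icc 1 Q, τ m ^ T * |total b d κ c w (x m) m|) / M := by
      rw [sum_div]
      apply sum_congr rfl
      intro m _
      unfold τ
      ring
    rw [e3, div_le_iff₀ hM0] at r4
    linarith

end Pool.Agent.Results.MP_188a10_nt.DigitPermutations
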