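import Pool.Agent.Results.MP_00e23e_nt.PalindromicResidues
import Pool.Agent.TH872.GQ.Dual

/-!
# Weighted level of distribution in the residue classes of palindromes

Definition used: `Pool.Agent.TH872.Tr.IsPalindrome b k v`: `v` is a palindrome with exactly `k` digits in
base `b`.

From Mathlib: `ArithmeticFunction.vonMangoldt`: the function `Λ`; `Nat.totient`: Euler's function.
-/

set_option autoImplicit false

namespace Pool.Agent.Results.MP_188a10_nt.Palindromes

open Finset Pool.Agent.TH872.Tr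

/-- `E(x; d, a) = ψ(x; d, a) - x / φ(d)`, where `ψ(x; d, a)` is the sum of `Λ(n)` over the `n ≤ x` with
`n ≡ a (mod d)`. -/
noncomputable def E (x d a : ℕ) : ℝ :=
  ∑ n ∈ (Icc 1 x).filter (fun n : ℕ => n ≡ a [MOD d]), ArithmeticFunction.vonMangoldt n - (x : ℝ) / Nat.totient d

/-- `τ(d)`: the number of the divisors of `d`. In particular `τ(d) ^ 2 ≥ 3 ^ ν(d)`, where `ν(d)` is the number of
the prime factors of `d`. -/
noncomputable def τ (d : ℕ) : ℝ := d.divisors.card

/-- The sum of `λ(d) E(x(d); d, a)` over the `d ≤ Q` coprime to `a`. -/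
noncomputable def weighted (lam : ℕ → ℝ) (x : ℕ → ℕ) (Q a : ℕ) : ℝ :=
  ∑ d ∈ (Icc 1 Q).filter (fun d : ℕ => a.Coprime d), lam d * E (x d) d a

open Classical in
/-- the palindromes with exactly `k` digits in base `b` -/
noncomputable def pals (b k : ℕ) : Finset ℕ := (range (b ^ k)).filter (fun v => IsPalindrome b k v)

open Classical in
/-- The sum of `w(v) E(x; d, a)` over the palindromes `v` with exactly `k` digits for which `a = c + κ v` is positive
and coprime to `d`. -/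
noncomputable def total (b k : ℕ) (κ c : ℤ) (w : ℕ → ℝ) (x d : ℕ) : ℝ :=
  ∑ v ∈ (pals b k).filter (fun v : ℕ => 0 < c + κ * v ∧ (c + κ * v).toNat.Coprime d), w v * E x d (c + κ * v).toNat

open Classical in
/-- Let `b ≥ 2`, `B`, `T`, `U`, `κ ≠ 0` and `ε > 0` be fixed, let `k` be large, `N = b ^ k` and `Q = N ^ (1 - ε)`, and let
`c` be an arbitrary integer with `|c| ≤ B N`. For a palindrome `v` with exactly `k` digits in base `b` let `a = c + κ v`.

(1) For arbitrary coefficients `λ(d)` with `|λ(d)| ≤ (τ(d) k) ^ T` (e.g. `|λ(d)| ≤ 3 ^ ν(d)`, if `T = 2`) all the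
palindromes `v` with `a > 0`, except for a proportion of at most `1 / k ^ U` of all the palindromes, satisfy: the sum of
`λ(d) E(x; d, a)` over the `d ≤ Q` coprime to `a` is at most `N / k ^ U` in absolute value, for ALL `x ≤ B N`.

(2) The same holds for the sums of `λ(d) E(x(d); d, a)`, if `x(d) ≤ B N` is an arbitrary function of the modulus.

(3) For arbitrary coefficients `|w(v)| ≤ k ^ T` and arbitrary `x(d) ≤ B N`, the sum over ALL `d ≤ Q` of `τ(d) ^ T` times
the ABSOLUTE VALUE of the sum of `w(v) E(x(d); d, a)`, over the palindromes `v` for which `a` is positive and coprime to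
`d`, is at most `N / k ^ U` times the number of the palindromes. -/
theorem result (b B T U : ℕ) (hb : 2 ≤ b) (κ : ℤ) (hκ : κ ≠ 0) (ε : ℝ) (hε : 0 < ε) :
    ∃ k₀ : ℕ, ∀ k : ℕ, k₀ ≤ k → ∀ N : ℕ, N = b ^ k → ∀ Q : ℕ, Q = ⌊(N : ℝ) ^ (1 - ε)⌋₊ →
      ∀ c : ℤ, |c| ≤ B * (N : ℤ) →
      (∀ lam : ℕ → ℝ, (∀ d, |lam d| ≤ (τ d * k) ^ T) →
        (((pals b k).filter (fun v : ℕ => 0 < c + κ * v ∧ ∃ x : ℕ, x ≤ B * N ∧
          N / (k : ℝ) ^ U < |weighted lam (fun _ => x) Q (c + κ * v).toNat|)).card : ℝ) ≤ (pals b k).card / (k : ℝ) ^ U ∧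
        ∀ x : ℕ → ℕ, (∀ d, x d ≤ B * N) →
        (((pals b k).filter (fun v : ℕ => 0 < c + κ * v ∧
          N / (k : ℝ) ^ U < |weighted lam x Q (c + κ * v).toNat|)).card : ℝ) ≤ (pals b k).card / (k : ℝ) ^ U) ∧
      (∀ w : ℕ → ℝ, (∀ v, |w v| ≤ (k : ℝ) ^ T) → ∀ x : ℕ → ℕ, (∀ d, x d ≤ B * N) →
        ∑ d ∈ Icc 1 Q, τ d ^ T * |total b k κ c w (x d) d| ≤ (pals b k).card * (N / (k : ℝ) ^ U)) := by
  obtain ⟨T₁, U₁, m₁, k1, hA⟩ := Pool.Agent.TH872.GQ.heavy T (U + 1)
  obtain ⟨T₂, U₂, m₂, k2, hB⟩ := Pool.Agent.TH872.GQ.absolute T (U + 1)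
  obtain ⟨k3, h3⟩ := Pool.Agent.Results.MP_00e23e_nt.PalindromicResidues.result b B T₁ U₁ hb κ hκ 1 ε one_pos hε
  obtain ⟨k4, h4⟩ := Pool.Agent.Results.MP_00e23e_nt.PalindromicResidues.result b B T₂ U₂ hb κ hκ 1 ε one_pos hε
  obtain ⟨k5, h5⟩ := Pool.Agent.TH872.GQ.scale b B (max m₁ m₂) hb ε hε
  refine ⟨k1 + k2 + k3 + k4 + k5 + 4, fun k hk N hN Q hQ c hc => ?_⟩
  have hk4 : (4 : ℝ) ≤ k := by exact_mod_cast (by omega : 4 ≤ k)
  have hk0 : (0 : ℝ) < k := by linarith
  have hk1 : (1 : ℝ) ≤ k := by linarith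
  obtain ⟨s1, s2, s3, s4⟩ := h5 k (by omega) N hN
  rw [← hQ] at s3
  obtain ⟨X, hX⟩ : ∃ X : ℕ, X = (B + 1) * N := ⟨_, rfl⟩
  rw [← hX] at s1 s2 s3 s4
  have hX' : B * N ≤ X := by rw [hX]; exact Nat.mul_le_mul_right _ (by omega)
  have hNX : (N : ℝ) ≤ X := by
    rw [hX]
    exact_mod_cast Nat.le_mul_of_pos_left N (by omega : 0 < B + 1)
  have s5 : ∀ m, m ≤ max m₁ m₂ → (Q : ℝ) * (k : ℝ) ^ m ≤ X := by
    intro m hm
    refine le_trans ?_ s3
    exact mul_le_mul_of_nonneg_left (pow_le_pow_right₀ hk1 hm) (Nat.cast_nonneg _)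
  have hc' : |c| ≤ B * (b : ℤ) ^ k := by
    refine hc.trans (le_of_eq ?_)
    rw [hN]
    push_cast
    rfl
  obtain ⟨M, hM⟩ : ∃ M : ℝ, M = ((pals b k).card : ℝ) := ⟨_, rfl⟩
  rw [← hM]
  have hM0 : 0 ≤ M := by rw [hM]; exact Nat.cast_nonneg _
  have hnum : ∀ (P : ℕ → Prop) (s : Finset ℕ), (∀ v ∈ s, v ∈ pals b k ∧ P v) → (s.card : ℝ) ≤ num b k P := by
    intro P s hs
    apply Nat.cast_le.2
    unfold num
    apply card_le_card
    intro v hv
    obtain ⟨h6, h7⟩ := hs v hv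
    unfold pals at h6
    rw [mem_filter] at h6 ⊢
    exact ⟨h6.1, h6.2, h7⟩
  have hnumP : ∀ P : ℕ → Prop, (num b k P : ℝ) ≤ M := by
    intro P
    rw [hM]
    apply Nat.cast_le.2
    unfold num pals
    apply card_le_card
    intro v hv
    rw [mem_filter] at hv ⊢
    exact ⟨hv.1, hv.2.1⟩
  have hnumT := hnumP (fun _ => True)
  obtain ⟨a, ha⟩ : ∃ a : ℕ → ℕ, a = fun v : ℕ => (c + κ * v).toNat := ⟨_, rfl⟩
  obtain ⟨Ω, hΩ⟩ : ∃ Ω : Finset ℕ, Ω = (pals b k).filter (fun v : ℕ => 0 < c + κ * v) := ⟨_, rfl⟩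
  have hΩsum : ∀ (E : ℕ → Prop) (_ : DecidablePred E), ∑ v ∈ Ω, (if E v then 1 / M else 0) = ((Ω.filter E).card : ℝ) / M := by
    intro E _
    rw [← sum_filter, sum_const, nsmul_eq_mul, mul_one_div]
  have hyp : ∀ T' U' : ℕ, (∀ lam : ℕ → ℝ, (∀ q, |lam q| ≤ (k : ℝ) ^ T') →
      (num b k (fun v : ℕ => 0 < c + κ * v ∧ ¬ Pool.Agent.Results.MP_00e23e_nt.PalindromicResidues.Level b B U' k ε lam (c + κ * v).toNat) : ℝ) ≤
        num b k (fun _ => True) / (k : ℝ) ^ U') →
      Pool.Agent.TH872.GQ.Hyp k X (B * N) Q T' U' Ω (fun _ => 1 / M) a := by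
    intro T' U' h lam hlam E hdec hE
    have h6 := (h lam hlam).trans (div_le_div_of_nonneg_right hnumT (by positivity))
    rw [hΩsum]
    have h7 : ((Ω.filter E).card : ℝ) ≤ M / (k : ℝ) ^ U' := by
      refine le_trans (hnum _ _ ?_) h6
      intro v hv
      rw [mem_filter] at hv
      obtain ⟨hv1, hv2⟩ := hv
      obtain ⟨x, hx, hlt⟩ := hE v hv1 hv2
      rw [hΩ, mem_filter] at hv1
      refine ⟨hv1.1, hv1.2, fun hL => ?_⟩
      have h8 := hL x (by rw [← hN]; exact hx)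
      rw [← hN, ← hQ] at h8
      have h9 : (N : ℝ) / (k : ℝ) ^ U' ≤ X / (k : ℝ) ^ U' := div_le_div_of_nonneg_right hNX (by positivity)
      have h10 : Pool.Agent.Results.MP_00e23e_nt.PalindromicResidues.weighted lam Q x (c + κ * v).toNat =
          Pool.Agent.TH212.EH.W lam Q x (a v) := by
        rw [ha]
        rfl
      rw [h10] at h8
      linarith
    rcases eq_or_lt_of_le hM0 with h0 | h0
    · rw [← h0]
      simp
    · rw [div_le_iff₀ h0]
      refine h7.trans (le_of_eq ?_)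
      ring
  have hypA := hyp T₁ U₁ (fun lam hlam => (h3 k (by omega) c hc' lam hlam).2)
  have hypB := hyp T₂ U₂ (fun lam hlam => (h4 k (by omega) c hc' lam hlam).2)
  have hp : ∀ ω ∈ Ω, (0 : ℝ) ≤ 1 / M := fun _ _ => by positivity
  have hp1 : ∑ ω ∈ Ω, 1 / M ≤ 1 := by
    rw [sum_const, nsmul_eq_mul, mul_one_div]
    rcases eq_or_lt_of_le hM0 with h0 | h0
    · rw [← h0]
      simp
    · rw [div_le_one h0, hM, hΩ]
      exact_mod_cast card_filter_le _ _
  have hcard : ∀ (P R : ℕ → Prop) (_ : DecidablePred P) (_ : DecidablePred R), (∀ v, R v → 0 < c + κ * (v : ℤ) ∧ P v) →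
      ∑ v ∈ Ω, (if P v then 1 / M else 0) ≤ 1 / (k : ℝ) ^ (U + 1) →
      (((pals b k).filter R).card : ℝ) ≤ M / (k : ℝ) ^ U := by
    intro P R hdec hdec' hR h
    rw [hΩsum] at h
    rcases eq_or_lt_of_le hM0 with h0 | h0
    · rw [← h0, zero_div]
      have : ((((pals b k).filter R).card : ℕ) : ℝ) ≤ M := by
        rw [hM]
        exact_mod_cast card_filter_le _ _
      linarith
    · rw [div_le_iff₀ h0] at h
      have h6 : (((pals b k).filter R).card : ℝ) ≤ ((Ω.filter P).card : ℝ) := by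
        apply Nat.cast_le.2
        apply card_le_card
        intro v hv
        rw [mem_filter] at hv ⊢
        obtain ⟨h7, h8⟩ := hR v hv.2
        rw [hΩ, mem_filter]
        exact ⟨⟨hv.1, h7⟩, h8⟩
      refine h6.trans (h.trans ?_)
      rw [one_div, inv_mul_eq_div]
      exact div_le_div_of_nonneg_left hM0 (by positivity) (pow_le_pow_right₀ hk1 (by omega))
  constructor
  · intro lam hlam
    have hlam' : ∀ q, |lam q| ≤ (k : ℝ) ^ T * (q.divisors.card : ℝ) ^ T := by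
      intro q
      refine (hlam q).trans (le_of_eq ?_)
      rw [mul_pow, mul_comm]
      rfl
    obtain ⟨r1, r2⟩ := hA k (by omega) X (B * N) Q hX' s1 s2 (s5 m₁ (le_max_left _ _)) ℕ Ω (fun _ => 1 / M) hp a hypA lam hlam'
    constructor
    · refine hcard (fun v : ℕ => ∃ x : ℕ, x ≤ B * N ∧ N / (k : ℝ) ^ U < |weighted lam (fun _ => x) Q (c + κ * v).toNat|) _
        (fun _ => Classical.propDecidable _) _ (fun v h => h) (r1 _ _ ?_)
      rintro v _ ⟨x, hx, hlt⟩
      refine ⟨x, hx, lt_of_le_of_lt (s4 U) ?_⟩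
      rw [ha]
      exact hlt
    · intro x hx
      refine hcard (fun v : ℕ => N / (k : ℝ) ^ U < |weighted lam x Q (c + κ * v).toNat|) _
        (fun _ => Classical.propDecidable _) _ (fun v h => h) (r2 x hx _ _ ?_)
      rintro v _ hlt
      refine lt_of_le_of_lt (s4 U) ?_
      rw [ha]
      exact hlt
  · intro w hw x hx
    have r3 := hB k (by omega) X (B * N) Q hX' s1 s2 (s5 m₂ (le_max_right _ _)) ℕ Ω (fun _ => 1 / M) hp hp1 a hypB w hw x hx
    have r4 := r3.trans (s4 U)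
    have e1 : ∀ d, |∑ v ∈ Ω.filter (fun v : ℕ => (a v).Coprime d), 1 / M * (w v *
        (Pool.Agent.W93.LV.Fu (fun n => ArithmeticFunction.vonMangoldt n) (x d) d (a v) - (x d : ℝ) / Nat.totient d))| =
        |total b k κ c w (x d) d| / M := by
      intro d
      rw [← mul_sum, abs_mul, abs_of_nonneg (by positivity : 0 ≤ 1 / M), one_div, inv_mul_eq_div, hΩ, filter_filter, ha]
      rfl
    simp only [e1] at r4
    rcases eq_or_lt_of_le hM0 with h0 | h0
    · have hemp : pals b k = ∅ := by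
        rw [← card_eq_zero]
        have : ((pals b k).card : ℝ) = 0 := by rw [← hM, ← h0]
        exact_mod_cast this
      have e2 : ∀ d, total b k κ c w (x d) d = 0 := by
        intro d
        unfold total
        rw [hemp]
        simp
      rw [← h0, zero_mul]
      apply le_of_eq
      apply sum_eq_zero
      intro d _
      rw [e2, abs_zero, mul_zero]
    · have e3 : ∑ d ∈ Icc 1 Q, (d.divisors.card : ℝ) ^ T * (|total b k κ c w (x d) d| / M) =
          (∑ d ∈ Icc 1 Q, τ d ^ T * |total b k κ c w (x d) d|) / M := by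
        rw [sum_div]
        apply sum_congr rfl
        intro d _
        unfold τ
        ring
      rw [e3, div_le_iff₀ h0] at r4
      linarith

end Pool.Agent.Results.MP_188a10_nt.Palindromes
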