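import Pool.Agent.TH872.GQ.En

/-!
# Weighted level of distribution for residues which are quadratic values at integers with restricted digits

The digits of the arguments of the quadratic polynomial lie in arbitrary sets of at least two digits, which
depend on the place and on the number of the digits; hence the residues form a very thin family. The
additive energy of this family (`Pool.Agent.TH872.GQ.quad_energy`) is new; the passage from the energy to the
level of distribution is `Pool.Agent.TH212.EH`.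

From Mathlib: `ArithmeticFunction.vonMangoldt`: the function `Λ`; `Nat.totient`: Euler's function.
-/

set_option autoImplicit false

namespace Pool.Agent.Results.MP_188a10_nt.QuadraticResidues

open Finset

/-- `E(x; d, a) = ψ(x; d, a) - x / φ(d)`, where `ψ(x; d, a)` is the sum of `Λ(n)` over the `n ≤ x` with
`n ≡ a (mod d)`. -/
noncomputable def E (x d : ℕ) (a : ℤ) : ℝ :=
  ∑ n ∈ (Icc 1 x).filter (fun n : ℕ => (n : ℤ) ≡ a [ZMOD d]), ArithmeticFunction.vonMangoldt n - (x : ℝ) / Nat.totient d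

/-- `τ(d)`: the number of the divisors of `d`. In particular `τ(d) ^ 2 ≥ 3 ^ ν(d)`, where `ν(d)` is the number of
the prime factors of `d`. -/
noncomputable def τ (d : ℕ) : ℝ := d.divisors.card

/-- `N / exp (K (log log N) ^ 2)` -/
noncomputable def level (K N : ℕ) : ℝ := N / Real.exp (K * Real.log (Real.log N) ^ 2)

/-- The integers below `b ^ k` whose `i`-th digit in base `b` lies in `D i`, for all `i < k`. -/
def S (b : ℕ) (D : ℕ → Finset ℕ) (k : ℕ) : Finset ℕ :=
  (range (b ^ k)).filter (fun n : ℕ => ∀ i < k, n / b ^ i % b ∈ D i)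

/-- the residue `a(n) = c + κ n ^ 2 + β n` -/
def res (κ β c : ℤ) (n : ℕ) : ℤ := c + κ * (n : ℤ) ^ 2 + β * n

/-- The sum of `λ(d) E(x(d); d, a)` over the `d ≤ Q` coprime to `a`. -/
noncomputable def weighted (lam : ℕ → ℝ) (x : ℕ → ℕ) (Q : ℕ) (a : ℤ) : ℝ :=
  ∑ d ∈ (Icc 1 Q).filter (fun d : ℕ => Int.gcd a d = 1), lam d * E (x d) d a

/-- The sum of `w(n) E(x; d, a(n))` over the `n ∈ S` for which `a(n)` is positive and coprime to `d`. -/
noncomputable def total (b : ℕ) (D : ℕ → Finset ℕ) (k : ℕ) (κ β c : ℤ) (w : ℕ → ℝ) (x d : ℕ) : ℝ :=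
  ∑ n ∈ (S b D k).filter (fun n => 0 < res κ β c n ∧ Int.gcd (res κ β c n) d = 1), w n * E x d (res κ β c n)

lemma gcd_iff (a : ℤ) (ha : 0 < a) (q : ℕ) : Int.gcd a q = 1 ↔ a.toNat.Coprime q := by
  obtain ⟨b, rfl⟩ := Int.eq_ofNat_of_zero_le ha.le
  rw [Int.gcd_natCast_natCast, Int.toNat_natCast, Nat.coprime_iff_gcd_eq_one]

lemma E_eq (x q : ℕ) (a : ℤ) (ha : 0 < a) : E x q a =
    Pool.Agent.W93.LV.Fu (fun n => ArithmeticFunction.vonMangoldt n) x q a.toNat - (x : ℝ) / Nat.totient q := by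
  obtain ⟨b, rfl⟩ := Int.eq_ofNat_of_zero_le ha.le
  unfold E Pool.Agent.W93.LV.Fu
  rw [Int.toNat_natCast]
  congr 1
  apply sum_congr _ (fun _ _ => rfl)
  ext n
  simp only [mem_filter, Int.natCast_modEq_iff]

lemma weighted_eq (lam : ℕ → ℝ) (x : ℕ → ℕ) (Q : ℕ) (a : ℤ) (ha : 0 < a) :
    weighted lam x Q a = Pool.Agent.TH212.EH.WW lam x Q a.toNat := by
  unfold weighted Pool.Agent.TH212.EH.WW
  simp only [gcd_iff a ha, E_eq _ _ a ha]

lemma card_le_sub (s : Finset ℕ) (P : ℕ → Prop) [DecidablePred P] (P' : {n // n ∈ s} → Prop) [DecidablePred P']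
    (h : ∀ i : {n // n ∈ s}, P i.1 → P' i) (t : ℝ) (ht : ((univ.filter P').card : ℝ) ≤ t) : ((s.filter P).card : ℝ) ≤ t := by
  classical
  refine le_trans ?_ ht
  apply Nat.cast_le.2
  have e : (s.filter P) ⊆ ((univ : Finset {n // n ∈ s}).filter P').image (fun i => i.1) := by
    intro n hn
    rw [mem_filter] at hn
    rw [mem_image]
    exact ⟨⟨n, hn.1⟩, mem_filter.2 ⟨mem_univ _, h ⟨n, hn.1⟩ hn.2⟩, rfl⟩
  exact (card_le_card e).trans card_image_le

lemma res_eq (κ β c : ℤ) (n : ℕ) : c + Pool.Agent.TH872.Sq.qv κ β n = res κ β c n := by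
  unfold Pool.Agent.TH872.Sq.qv res
  ring

open Classical in
/-- Let `b ≥ 2`, integers `κ ≠ 0` and `β`, and `B`, `T`, `U` be fixed. There is a `K` such that for all large `k`, with
`N = b ^ (2 k)`, the following holds for ALL sets `D 0, …, D (k - 1)` of at least two digits in base `b` and ALL integers
`c` with `|c| ≤ B N`. Let `S` be the set of the integers below `b ^ k` whose `i`-th digit lies in `D i` for all `i < k`,
and let `a(n) = c + κ n ^ 2 + β n`.

(1) For arbitrary coefficients `λ(d)` with `|λ(d)| ≤ (τ(d) log N) ^ T` (e.g. `|λ(d)| ≤ 3 ^ ν(d)`, if `T = 2`) all but at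
most `#S / log ^ U N` of the `n ∈ S` with `a = a(n) > 0` satisfy: the sum of `λ(d) E(x; d, a)` over the `d ≤ Q` coprime
to `a` is at most `N / log ^ U N` in absolute value, for ALL `Q ≤ N / exp (K (log log N) ^ 2)` and ALL `x ≤ B N`.

(2) The same holds for the sums of `λ(d) E(x(d); d, a)`, if `x(d) ≤ B N` is an arbitrary function of the modulus.

(3) For arbitrary coefficients `|w(n)| ≤ log ^ T N` and arbitrary `x(d) ≤ B N`, the sum over ALL
`d ≤ N / exp (K (log log N) ^ 2)` of `τ(d) ^ T` times the ABSOLUTE VALUE of the sum of `w(n) E(x(d); d, a(n))`, over the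
`n ∈ S` for which `a(n)` is positive and coprime to `d`, is at most `#S N / log ^ U N`. -/
theorem result (b B T U : ℕ) (hb : 2 ≤ b) (κ β : ℤ) (hκ : κ ≠ 0) :
    ∃ K k₀ : ℕ, ∀ k : ℕ, k₀ ≤ k → ∀ N : ℕ, N = b ^ (2 * k) →
      ∀ D : ℕ → Finset ℕ, (∀ i < k, D i ⊆ range b ∧ 2 ≤ (D i).card) → ∀ c : ℤ, |c| ≤ B * (N : ℤ) →
      (∀ lam : ℕ → ℝ, (∀ d, |lam d| ≤ (τ d * Real.log N) ^ T) →
        (((S b D k).filter (fun n => 0 < res κ β c n ∧ ∃ Q : ℕ, (Q : ℝ) ≤ level K N ∧ ∃ x : ℕ, x ≤ B * N ∧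
          N / Real.log N ^ U < |weighted lam (fun _ => x) Q (res κ β c n)|)).card : ℝ) ≤ (S b D k).card / Real.log N ^ U ∧
        ∀ x : ℕ → ℕ, (∀ d, x d ≤ B * N) →
        (((S b D k).filter (fun n => 0 < res κ β c n ∧ ∃ Q : ℕ, (Q : ℝ) ≤ level K N ∧
          N / Real.log N ^ U < |weighted lam x Q (res κ β c n)|)).card : ℝ) ≤ (S b D k).card / Real.log N ^ U) ∧
      (∀ w : ℕ → ℝ, (∀ n, |w n| ≤ Real.log N ^ T) → ∀ x : ℕ → ℕ, (∀ d, x d ≤ B * N) →
        ∑ d ∈ Icc 1 ⌊level K N⌋₊, τ d ^ T * |total b D k κ β c w (x d) d| ≤ (S b D k).card * N / Real.log N ^ U) := by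
  obtain ⟨p, B', k0, hB, hyp⟩ := Pool.Agent.TH872.GQ.quad_hyp b hb κ β hκ B
  obtain ⟨K1, n1, h1⟩ := Pool.Agent.TH212.EH.few p B' 1 T U
  obtain ⟨K2, n2, h2⟩ := Pool.Agent.TH212.EH.dual p B' 1 T U
  refine ⟨max K1 K2, k0 + n1 + n2, fun k hk N hNk D hD c hc => ?_⟩
  have hkN : k ≤ N := by
    rw [hNk]
    calc k ≤ 2 * k := by omega
      _ ≤ b ^ (2 * k) := (Nat.lt_pow_self (by omega)).le
  obtain ⟨hv, hE⟩ := hyp k (by omega) D hD c (by rw [← hNk]; exact hc)
  rw [← hNk] at hv hE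
  have hSS : Pool.Agent.TH872.Sq.SD b D k = S b D k := rfl
  rw [hSS] at hv hE
  simp only [res_eq] at hv hE
  have hfc : Fintype.card {n // n ∈ S b D k} = (S b D k).card := Fintype.card_coe _
  have hBN : B * N ≤ B' * N := Nat.mul_le_mul_right _ hB
  have hlev1 : level (max K1 K2) N ≤ Pool.Agent.TH212.EH.level K1 N :=
    Pool.Agent.TH212.EH.level_anti K1 _ N (le_max_left _ _)
  have hlev2 : level (max K1 K2) N ≤ Pool.Agent.TH212.EH.level K2 N :=
    Pool.Agent.TH212.EH.level_anti K2 _ N (le_max_right _ _)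
  have hlev0 : 0 ≤ level (max K1 K2) N := by unfold level; positivity
  constructor
  · intro lam hlam
    have hlam' : ∀ q, |lam q| ≤ Real.log N ^ T * (q.divisors.card : ℝ) ^ T := by
      intro q
      refine (hlam q).trans (le_of_eq ?_)
      rw [mul_pow, mul_comm]
      rfl
    obtain ⟨k1, k2⟩ := h1 N (by omega) {n // n ∈ S b D k} (fun i => res κ β c i.1) hv hE lam hlam'
    rw [hfc] at k1
    constructor
    · refine card_le_sub (S b D k) _ _ ?_ _ k1
      rintro i ⟨hi1, Q, hQ, x, hx, hbig⟩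
      refine ⟨hi1, Q, hQ.trans hlev1, x, hx.trans hBN, ?_⟩
      rw [weighted_eq lam (fun _ => x) Q _ hi1] at hbig
      exact hbig
    · intro x hx
      have k3 := k2 x (fun q => (hx q).trans hBN)
      rw [hfc] at k3
      refine card_le_sub (S b D k) _ _ ?_ _ k3
      rintro i ⟨hi1, Q, hQ, hbig⟩
      refine ⟨hi1, Q, hQ.trans hlev1, ?_⟩
      rw [weighted_eq lam x Q _ hi1] at hbig
      exact hbig
  · intro w hw x hx
    have k3 := h2 N (by omega) {n // n ∈ S b D k} (fun i => res κ β c i.1) hv hE (fun i => w i.1) (fun i => hw i.1)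
      ⌊level (max K1 K2) N⌋₊ ((Nat.floor_le hlev0).trans hlev2) x (fun q => (hx q).trans hBN)
    rw [hfc] at k3
    rw [mul_comm ((S b D k).card : ℝ)]
    refine le_trans (le_of_eq ?_) k3
    apply sum_congr rfl
    intro q _
    unfold τ total
    congr 2
    have e : (S b D k).filter (fun n => 0 < res κ β c n ∧ Int.gcd (res κ β c n) q = 1) =
        ((univ : Finset {n // n ∈ S b D k}).filter (fun i => 0 < res κ β c i.1 ∧ (res κ β c i.1).toNat.Coprime q)).image (fun i => i.1) := by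
      ext n
      rw [mem_image, mem_filter]
      constructor
      · rintro ⟨h3, h4, h5⟩
        exact ⟨⟨n, h3⟩, mem_filter.2 ⟨mem_univ _, h4, (gcd_iff _ h4 q).1 h5⟩, rfl⟩
      · rintro ⟨i, h3, rfl⟩
        have h4 := (mem_filter.1 h3).2
        exact ⟨i.2, h4.1, (gcd_iff _ h4.1 q).2 h4.2⟩
    rw [e, sum_image (by
      intro i _ j _ h
      exact Subtype.ext h)]
    apply sum_congr rfl
    intro i hi
    rw [mem_filter] at hi
    rw [E_eq _ _ _ hi.2.1]

end Pool.Agent.Results.MP_188a10_nt.QuadraticResidues
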